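import Pool.Agent.helper84.LP.SpecG

set_option autoImplicit false

/-! Row lp:COL (MP_07c750_an) -/

open scoped MatrixGroups ContDiff Topology UpperHalfPlane ComplexConjugate
open UpperHalfPlane MeasureTheory Filter Set

namespace Pool.Agent.LP

open Pool.Agent.RS
open Pool.Agent.MS (bq BB BA SF pf)
open Pool.Agent.HV (FW)
open Pool.Agent.EN (XG MG mkX mkM fl pr)
open Pool.Agent.ER (Low LowJ)

theorem COL_proof (hCOV : IR.COV_stmt) (hFLI : IR.FLI_stmt) : COL_stmt := by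
  intro Γ μ ρ hΓ hμ hinv hρ
  refine ⟨fun n => ?_, fun a η δ ha hη hδ => hCOV Γ μ ρ hΓ hμ hinv hρ a η δ ha hη hδ⟩
  have h1 : Low Γ μ ρ \ (fl Γ n) ⁻¹' (Low Γ μ ρ) = ∅ := by
    rw [Set.diff_eq_empty]
    intro x hx
    exact hFLI Γ μ ρ n x hΓ hμ hinv hx
  rw [h1, measureReal_empty]

end Pool.Agent.LP
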