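import Pool.Agent.helper84.LP.SpecP

set_option autoImplicit false

/-! Row lp:KVU (MP_07c750_an) -/

open MeasureTheory Set

namespace Pool.Agent.LP

theorem KVU_den {X u : ℝ} (hX : |X| ≤ 1 / 16) (hu : u ∈ Icc (-2 : ℝ) 2) : 7 / 8 ≤ 1 - X * u ∧ 1 - X * u ≤ 9 / 8 := by
  have h1 := abs_le.1 hX
  have h2 : |X * u| ≤ 1 / 8 := by
    rw [abs_mul]
    have h3 : |u| ≤ 2 := abs_le.2 hu
    calc |X| * |u| ≤ 1 / 16 * 2 := mul_le_mul hX h3 (abs_nonneg _) (by norm_num)
      _ = 1 / 8 := by norm_num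
  have h4 := abs_le.1 h2
  constructor <;> linarith [h4.1, h4.2]

theorem KVU_d0 {d0 : ℝ} (h : |d0 - 1| ≤ 1 / 100) : 9801 / 10000 ≤ d0 ^ 2 ∧ d0 ^ 2 ≤ 10201 / 10000 := by
  have h1 := abs_le.1 h
  constructor <;> nlinarith [h1.1, h1.2]

theorem KVU_deriv {X u : ℝ} (A d0 : ℝ) (hX : |X| ≤ 1 / 16) (hu : u ∈ Icc (-2 : ℝ) 2) :
    HasDerivAt (fun u : ℝ => A + mm X u / d0 ^ 2) (md X u / d0 ^ 2) u := by
  have h1 := (KVU_den hX hu).1
  have h2 : HasDerivAt (fun u : ℝ => 1 - X * u) (-X) u := by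
    have h3 := ((hasDerivAt_id u).const_mul X).const_sub 1
    have h4 : -(X * 1) = -X := by ring
    rw [h4] at h3
    exact h3
  have h5 : HasDerivAt (fun u : ℝ => u / (1 - X * u)) ((1 * (1 - X * u) - u * (-X)) / (1 - X * u) ^ 2) u :=
    (hasDerivAt_id u).div h2 (by linarith)
  have h6 : (1 * (1 - X * u) - u * (-X)) / (1 - X * u) ^ 2 = md X u := by
    unfold md
    congr 1
    ring
  rw [h6] at h5
  exact (h5.div_const (d0 ^ 2)).const_add A

theorem KVU_dist {X u v d0 : ℝ} (A : ℝ) (hX : |X| ≤ 1 / 16) (hd0 : |d0 - 1| ≤ 1 / 100)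
    (hu : u ∈ Icc (-2 : ℝ) 2) (hv : v ∈ Icc (-2 : ℝ) 2) :
    3 / 4 * |u - v| ≤ |(A + mm X u / d0 ^ 2) - (A + mm X v / d0 ^ 2)| := by
  have h1 := KVU_den hX hu
  have h2 := KVU_den hX hv
  have h3 := KVU_d0 hd0
  have hP : 0 < (1 - X * u) * (1 - X * v) * d0 ^ 2 := by
    have ha : 0 < 1 - X * u := by linarith
    have hb : 0 < 1 - X * v := by linarith
    have hc : 0 < d0 ^ 2 := by linarith
    positivity
  have h4 : (A + mm X u / d0 ^ 2) - (A + mm X v / d0 ^ 2) = (u - v) / ((1 - X * u) * (1 - X * v) * d0 ^ 2) := by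
    unfold mm
    have ha : (1 - X * u) ≠ 0 := by linarith
    have hb : (1 - X * v) ≠ 0 := by linarith
    have hc : d0 ^ 2 ≠ 0 := by linarith
    have key : ∀ a b c : ℝ, a ≠ 0 → b ≠ 0 → c ≠ 0 → (A + u / a / c) - (A + v / b / c) = (u * b - v * a) / (a * b * c) := by
      intro a b c h1 h2 h3
      field_simp
      ring
    rw [key _ _ _ ha hb hc]
    congr 1
    ring
  rw [h4, abs_div, abs_of_pos hP, le_div_iff₀ hP]
  have h5 : (1 - X * u) * (1 - X * v) * d0 ^ 2 ≤ 4 / 3 := by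
    have h6 : (1 - X * u) * (1 - X * v) ≤ 81 / 64 := by nlinarith [h1.1, h1.2, h2.1, h2.2]
    have h7 : 0 ≤ (1 - X * u) * (1 - X * v) := by nlinarith [h1.1, h1.2, h2.1, h2.2]
    calc (1 - X * u) * (1 - X * v) * d0 ^ 2 ≤ 81 / 64 * (10201 / 10000) :=
          mul_le_mul h6 h3.2 (by positivity) (by norm_num)
      _ ≤ 4 / 3 := by norm_num
  have h8 := mul_le_mul_of_nonneg_left h5 (abs_nonneg (u - v))
  calc 3 / 4 * |u - v| * ((1 - X * u) * (1 - X * v) * d0 ^ 2)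
      = 3 / 4 * (|u - v| * ((1 - X * u) * (1 - X * v) * d0 ^ 2)) := by ring
    _ ≤ 3 / 4 * (|u - v| * (4 / 3)) := mul_le_mul_of_nonneg_left h8 (by norm_num)
    _ = |u - v| := by ring

theorem KVU_inj {X d0 : ℝ} (A : ℝ) (hX : |X| ≤ 1 / 16) (hd0 : |d0 - 1| ≤ 1 / 100) {S : Set ℝ} (hS : S ⊆ Icc (-2 : ℝ) 2) :
    InjOn (fun u : ℝ => A + mm X u / d0 ^ 2) S := by
  intro u hu v hv huv
  have h1 := KVU_dist A hX hd0 (hS hu) (hS hv)
  have h2 : (A + mm X u / d0 ^ 2) - (A + mm X v / d0 ^ 2) = 0 := sub_eq_zero.2 huv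
  rw [h2, abs_zero] at h1
  have h3 : |u - v| ≤ 0 := by linarith
  have h4 := abs_eq_zero.1 (le_antisymm h3 (abs_nonneg _))
  linarith

theorem KVU_md {X d0 u : ℝ} (hX : |X| ≤ 1 / 16) (hd0 : |d0 - 1| ≤ 1 / 100) (hu : u ∈ Icc (-2 : ℝ) 2) :
    0 ≤ md X u / d0 ^ 2 ∧ md X u / d0 ^ 2 ≤ 4 / 3 := by
  have h1 := KVU_den hX hu
  have h3 := KVU_d0 hd0
  have hc : 0 < d0 ^ 2 := by linarith
  unfold md
  have ha : 0 < 1 - X * u := by linarith
  refine ⟨by positivity, ?_⟩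
  rw [div_div, div_le_iff₀ (by positivity)]
  have h4 : (7 / 8 : ℝ) ^ 2 ≤ (1 - X * u) ^ 2 := pow_le_pow_left₀ (by norm_num) h1.1 2
  have h5 : (7 / 8 : ℝ) ^ 2 * (9801 / 10000) ≤ (1 - X * u) ^ 2 * d0 ^ 2 :=
    mul_le_mul h4 h3.1 (by norm_num) (by positivity)
  have h6 : (1 : ℝ) ≤ 4 / 3 * ((7 / 8 : ℝ) ^ 2 * (9801 / 10000)) := by norm_num
  linarith

theorem KVU_proof : KVU_stmt := by
  intro U X d0 A hU hU2 hX hd0 hA
  have hd := KVU_d0 hd0
  have hd2 : 0 < d0 ^ 2 := by linarith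
  have hder : ∀ u ∈ U, HasDerivWithinAt (fun u : ℝ => A + mm X u / d0 ^ 2) (md X u / d0 ^ 2) U u :=
    fun u hu => (KVU_deriv A d0 hX (hU2 hu)).hasDerivWithinAt
  have hinj := KVU_inj A hX hd0 hU2
  refine ⟨?_, ?_, ?_, ?_⟩
  · refine hU.image_of_continuousOn_injOn (fun u hu => (hder u hu).continuousWithinAt) hinj
  · rintro _ ⟨u, hu, rfl⟩
    have h1 := KVU_den hX (hU2 hu)
    have h2 := hU2 hu
    have ha : 0 < 1 - X * u := by linarith
    have h3 : |mm X u / d0 ^ 2| ≤ 3 := by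
      unfold mm
      rw [div_div, abs_div, abs_of_pos (by positivity : 0 < (1 - X * u) * d0 ^ 2), div_le_iff₀ (by positivity)]
      have h4 : |u| ≤ 2 := abs_le.2 h2
      have h5 : (7 / 8 : ℝ) * (9801 / 10000) ≤ (1 - X * u) * d0 ^ 2 := mul_le_mul h1.1 hd.1 (by norm_num) ha.le
      have h6 : (2 : ℝ) ≤ 3 * ((7 / 8 : ℝ) * (9801 / 10000)) := by norm_num
      linarith
    have h7 : |A + mm X u / d0 ^ 2| ≤ 4 := (abs_add_le _ _).trans (by linarith)
    exact abs_le.1 h7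
  · intro s
    rw [integral_image_eq_integral_abs_deriv_smul hU hder hinj]
    have h1 : ∫ u in U, |md X u / d0 ^ 2| • ee (s * (A + mm X u / d0 ^ 2)) =
        ∫ u in U, (ee (s * A) * ((1 / d0 ^ 2 : ℝ) : ℂ)) * (ee (s / d0 ^ 2 * mm X u) * (md X u : ℂ)) := by
      refine setIntegral_congr_fun hU fun u hu => ?_
      have h2 := (KVU_md hX hd0 (hU2 hu)).1
      show |md X u / d0 ^ 2| • ee (s * (A + mm X u / d0 ^ 2)) = _
      rw [abs_of_nonneg h2]
      have h3 : ee (s * (A + mm X u / d0 ^ 2)) = ee (s * A) * ee (s / d0 ^ 2 * mm X u) := by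
        unfold ee
        rw [← Complex.exp_add]
        congr 1
        push_cast
        ring
      rw [h3, Complex.real_smul]
      push_cast
      ring
    rw [h1, integral_const_mul, norm_mul, norm_mul]
    have h4 : ‖ee (s * A)‖ = 1 := by
      unfold ee
      exact Complex.norm_exp_ofReal_mul_I _
    rw [h4, one_mul, Complex.norm_real, Real.norm_of_nonneg (by positivity)]
    rfl
  · intro H ϑ hH hϑ y
    have hH0 : (0 : ℝ) < H := by exact_mod_cast hH
    have hϑ0 : 0 ≤ ϑ / H := le_trans measureReal_nonneg (hϑ 0)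
    set φ : ℝ → ℝ := fun u : ℝ => A + mm X u / d0 ^ 2 with hφ
    set S : Set ℝ := {u | u ∈ U ∧ φ u ∈ Icc y (y + 1 / H)} with hS
    have hVm : MeasurableSet (φ '' U) := hU.image_of_continuousOn_injOn (fun u hu => (hder u hu).continuousWithinAt) hinj
    have hSU : S ⊆ U := fun u hu => hu.1
    have hSm : MeasurableSet S := by
      have h1 : ContinuousOn φ U := fun u hu => (hder u hu).continuousWithinAt
      obtain ⟨t, ht, htU⟩ := (continuousOn_iff_isClosed.1 h1) (Icc y (y + 1 / H)) isClosed_Icc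
      have h2 : S = t ∩ U := by
        rw [← htU]
        ext u
        exact ⟨fun h => ⟨h.2, h.1⟩, fun h => ⟨h.2, h.1⟩⟩
      rw [h2]
      exact ht.measurableSet.inter hU
    have himg : φ '' U ∩ Icc y (y + 1 / H) = φ '' S := by
      ext v
      constructor
      · rintro ⟨⟨u, hu, rfl⟩, hv⟩
        exact ⟨u, ⟨hu, hv⟩, rfl⟩
      · rintro ⟨u, ⟨hu, hv⟩, rfl⟩
        exact ⟨⟨u, hu, rfl⟩, hv⟩
    rw [himg]
    have hSfin : volume S < ⊤ := lt_of_le_of_lt (measure_mono (hSU.trans hU2)) (by rw [Real.volume_Icc]; exact ENNReal.ofReal_lt_top)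
    have h2 : volume.real (φ '' S) = ∫ u in S, |md X u / d0 ^ 2| := by
      have h3 := integral_image_eq_integral_abs_deriv_smul hSm (f := φ) (f' := fun u => md X u / d0 ^ 2)
        (fun u hu => (KVU_deriv A d0 hX (hU2 (hSU hu))).hasDerivWithinAt) (KVU_inj A hX hd0 (hSU.trans hU2)) (fun _ => (1 : ℝ))
      simp only [smul_eq_mul, mul_one] at h3
      rw [← h3, setIntegral_const, smul_eq_mul, mul_one]
    have h4 : volume.real (φ '' S) ≤ 4 / 3 * volume.real S := by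
      rw [h2]
      have h5 : ‖∫ u in S, |md X u / d0 ^ 2|‖ ≤ 4 / 3 * volume.real S := by
        refine norm_setIntegral_le_of_norm_le_const hSfin fun u hu => ?_
        have h6 := KVU_md hX hd0 (hU2 (hSU hu))
        rw [Real.norm_eq_abs, abs_abs, abs_of_nonneg h6.1]
        exact h6.2
      exact (le_abs_self _).trans h5
    have h7 : volume.real S ≤ 3 * (ϑ / H) := by
      rcases S.eq_empty_or_nonempty with h8 | ⟨u0, hu0⟩
      · rw [h8, measureReal_empty]
        positivity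
      · have hcov : S ⊆ (U ∩ Icc (u0 - 4 / 3 * (1 / H)) (u0 - 4 / 3 * (1 / H) + 1 / H)) ∪
            ((U ∩ Icc (u0 - 1 / 3 * (1 / H)) (u0 - 1 / 3 * (1 / H) + 1 / H)) ∪
              (U ∩ Icc (u0 + 2 / 3 * (1 / H)) (u0 + 2 / 3 * (1 / H) + 1 / H))) := by
          intro u hu
          have h9 := KVU_dist A hX hd0 (hU2 hu.1) (hU2 hu0.1)
          have h10 : |(A + mm X u / d0 ^ 2) - (A + mm X u0 / d0 ^ 2)| ≤ 1 / H := by
            have ha := hu.2
            have hb := hu0.2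
            rw [hφ] at ha hb
            rw [abs_le]
            constructor <;> linarith [ha.1, ha.2, hb.1, hb.2]
          have h11 : |u - u0| ≤ 4 / 3 * (1 / H) := by linarith
          have h12 := abs_le.1 h11
          have hpos : (0 : ℝ) < 1 / H := by positivity
          rcases le_or_gt u (u0 - 1 / 3 * (1 / H)) with h13 | h13
          · exact Or.inl ⟨hu.1, by constructor <;> linarith [h12.1]⟩
          · rcases le_or_gt u (u0 + 2 / 3 * (1 / H)) with h14 | h14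
            · exact Or.inr (Or.inl ⟨hu.1, by constructor <;> linarith⟩)
            · exact Or.inr (Or.inr ⟨hu.1, by constructor <;> linarith [h12.2]⟩)
        have hfin : ∀ a b : ℝ, volume (U ∩ Icc a b) ≠ ⊤ := fun a b =>
          (lt_of_le_of_lt (measure_mono inter_subset_right) (by rw [Real.volume_Icc]; exact ENNReal.ofReal_lt_top)).ne
        have h15 := measureReal_mono hcov (measure_union_lt_top (hfin _ _).lt_top (measure_union_lt_top (hfin _ _).lt_top (hfin _ _).lt_top)).ne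
        refine h15.trans ((measureReal_union_le _ _).trans ?_)
        have h16 := measureReal_union_le (μ := volume) (U ∩ Icc (u0 - 1 / 3 * (1 / H)) (u0 - 1 / 3 * (1 / H) + 1 / H))
          (U ∩ Icc (u0 + 2 / 3 * (1 / H)) (u0 + 2 / 3 * (1 / H) + 1 / H))
        linarith [hϑ (u0 - 4 / 3 * (1 / H)), hϑ (u0 - 1 / 3 * (1 / H)), hϑ (u0 + 2 / 3 * (1 / H))]
    calc volume.real (φ '' S) ≤ 4 / 3 * volume.real S := h4
      _ ≤ 4 / 3 * (3 * (ϑ / H)) := mul_le_mul_of_nonneg_left h7 (by norm_num)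
      _ = 4 * ϑ / H := by ring

end Pool.Agent.LP
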